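import Mathlib
import Pool.Agent.Lib.MP_819a4a_pr.Prob

set_option autoImplicit false

namespace Pool.Agent.Results.MP_819a4a_pr.SupFormula

open Pool.Agent.Lib.MP_819a4a_pr

theorem result (r : ℝ) (hr : 0 < r) :
    s r = (⨆ (k : ℕ) (_ : 1 ≤ k), ENNReal.ofReal (g k r)) ∧
      ∃ k : ℕ, 1 ≤ k ∧ k ≤ ⌈r⌉₊ ∧ s r = ENNReal.ofReal (g k r) := by
  obtain ⟨k, h1, h2, h3⟩ := main_theorem hr
  refine ⟨le_antisymm ?_ (iSup_le fun j => iSup_le fun hj => lower_bound hr hj), k, h1, h2, h3⟩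
  rw [h3]
  exact le_iSup_of_le k (le_iSup_of_le h1 le_rfl)

end Pool.Agent.Results.MP_819a4a_pr.SupFormula
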